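import Pool.Agent.V5helper56.PH.Lower

set_option autoImplicit false

/-!
# Progression-free sets given by additive digit statistics: the exact growth rate

Let `b ≥ 2` and `N = b ^ m`. We consider sets `A ⊆ [0, N)` which are decided by a `b`-additive
function in the sense of Bellman, Shapiro, Gelfond and Delange: `a ∈ A` if and only if
`Φ(a) = ∑ f i (a_i)` lies in a prescribed set, where `a_i` are the digits of `a` in base `b`; the
functions `f i` are arbitrary functions on the digits with values in any abelian group. The sets of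
Salem and Spencer and of Behrend in base `b` are of this form, with values `Φ(a)` in a set of only
`O(m ^ b)` elements.

We determine the exponential growth rate of the largest progression-free sets of this form in every
even base, for all bounds `V` for the number of values of `Φ` between a polynomial in `m` and
`exp (o(m / log m))`. It is `b / 2` if `4 ∣ b`, and it is `√(b (b + 2)) / 2`, which is larger than
`b / 2`, if `b ≡ 2 mod 4`. The same is true for `b = 3` and `b = 7` with the rate `(b + 1) / 2`. For
the other odd bases we have a lower bound `(b + 1) / 2` and an upper bound `√(b ⌊(b + 1) / 3⌋)` or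
`(b + 1) / 2` for the rate.

Proof of the upper bound. We view blocks of `L` digits as letters. If `A` is large then, by a
Sauer-Shelah type lemma, it contains words with a large set of coordinates which are free in a set
`S` of letters of large cardinality, and a sunflower argument over the partial sums of `Φ` gives a
progression all of whose terms have the same value of `Φ` as soon as there is a family of
progressions of letters for which the terms have the same distributions of each of the digits as a
family of elements of `S`. Here the terms of the progressions may be outside of `S`: it is enough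
that the product `D 0 × ... × D (L - 1)` of the sets of digits of `S` carries a balanced weight. If
not, then by Gordan's theorem there are functions on the sets `D i` with a strictly convex sum. An
analysis of the carries shows that the product of the `|D i|` is small: a set with more than
`(b + 1) / 2` elements makes the carries free, and before the next such set there must be a reset
set `D ⊆ ℤ / b`, for which there are a function `φ` and a number `γ` with
`φ(x) + φ(z) - 2 φ(y) > γ e` for all nontrivial solutions of `x + z = 2 y - e` in `D`,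
`e ∈ {-1, 0, 1}`. For even `b` reset sets have at most `(b + 2) / 4` elements. This is proved by
comparing complementary minors of a group matrix of `ℤ / (b / 2)` over the exterior algebra in
characteristic two, which has an inverse with linear entries.
-/

namespace Pool.Agent.Results.MP_0f71ae_nt.AdditiveDigitStatistics

open Finset Filter Topology
open Pool.Agent.V5helper56

/-- `A ⊆ [0, b ^ m)`, and for some `b`-additive function `Φ(a) = ∑ i < m, f i (a_i)` of the digits
`a_i` of `a` in base `b`, with values in some abelian group and at most `V` different values on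
`[0, b ^ m)`, and some set `D` of values, `A` is the set of all `a < b ^ m` with `Φ(a) ∈ D`. -/
def DecidedBy (b m V : ℕ) (A : Finset ℕ) : Prop :=
  A ⊆ range (b ^ m) ∧ ∃ (G : Type) (_ : AddCommGroup G) (f : ℕ → ℕ → G) (D : Set G),
    ((fun a => ∑ i ∈ range m, f i (a / b ^ i % b)) '' Set.Iio (b ^ m)).ncard ≤ V ∧
    ∀ a < b ^ m, a ∈ A ↔ ∑ i ∈ range m, f i (a / b ^ i % b) ∈ D

/-- the largest size of a progression-free subset of `[0, b ^ m)` which is decided by a
`b`-additive function with at most `V` values -/
noncomputable def largest (b m V : ℕ) : ℕ :=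
  sSup {n | ∃ A : Finset ℕ, DecidedBy b m V A ∧ ThreeAPFree (A : Set ℕ) ∧ A.card = n}

/-- `√(b (b + 2)) / 2` if `b ≡ 2 mod 4`, and `⌊(b + 1) / 2⌋` otherwise -/
noncomputable def rate (b : ℕ) : ℝ :=
  if b % 4 = 2 then √(b * (b + 2) : ℝ) / 2 else (((b + 1) / 2 : ℕ) : ℝ)

/-- the same as `rate b` for even `b`, and `√(max ⌊(b + 1) / 2⌋ ^ 2 (b ⌊(b + 1) / 3⌋))` for odd
`b` -/
noncomputable def upperRate (b : ℕ) : ℝ :=
  if b % 2 = 0 then rate b else √((max (((b + 1) / 2) ^ 2) (b * ((b + 1) / 3)) : ℕ) : ℝ)

theorem sqrt_κ (b : ℕ) : √(PH.κ b : ℝ) = rate b := by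
  unfold PH.κ rate
  by_cases h : b % 4 = 2
  · rw [if_pos h, if_pos h]
    obtain ⟨c, hc⟩ : ∃ c, b = 4 * c + 2 := ⟨b / 4, by omega⟩
    have h1 : (b + 2) / 4 = c + 1 := by omega
    have h2 : ((b * ((b + 2) / 4) : ℕ) : ℝ) = (b * (b + 2) : ℝ) / 2 ^ 2 := by
      rw [h1, hc]
      push_cast
      ring
    rw [h2, Real.sqrt_div (by positivity), Real.sqrt_sq (by norm_num)]
  · rw [if_neg h, if_neg h]
    push_cast
    rw [Real.sqrt_sq]
    positivity

theorem sqrt_K {b : ℕ} (hb : 2 ≤ b) : √(PH.K b : ℝ) = upperRate b := by
  unfold upperRate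
  by_cases h : b % 2 = 0
  · rw [if_pos h, PH.K_eq hb (Or.inl h), sqrt_κ]
  · rw [if_neg h]
    unfold PH.K PH.R
    rw [if_neg h]

theorem upperRate_lt {b : ℕ} (hb : 2 ≤ b) : upperRate b < b := by
  rw [← sqrt_K hb, Real.sqrt_lt' (by positivity)]
  have h1 : PH.K b < b ^ 2 := by
    unfold PH.K PH.R
    have h2 : (b + 1) / 2 < b := by omega
    have h3 : ((b + 1) / 2) ^ 2 < b ^ 2 := Nat.pow_lt_pow_left h2 (by norm_num)
    apply max_lt h3
    rw [sq]
    apply Nat.mul_lt_mul_of_pos_left _ (by omega)
    split_ifs <;> omega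
  exact_mod_cast h1

theorem rate_le {b : ℕ} (hb : 2 ≤ b) : rate b ≤ upperRate b := by
  by_cases h : b % 2 = 0
  · unfold upperRate
    rw [if_pos h]
  · rw [← sqrt_K hb, ← sqrt_κ]
    apply Real.sqrt_le_sqrt
    have h1 : PH.κ b ≤ PH.K b := by
      unfold PH.κ PH.K
      rw [if_neg (by omega)]
      exact le_max_left _ _
    exact_mod_cast h1

/-- **Main theorem.** Let `b ≥ 2`.
(1) For every `ε > 0` there are `δ > 0` and `m₀` such that every progression-free set
`A ⊆ [0, b ^ m)` which is decided by a `b`-additive function with at most `V` values has at most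
`(upperRate b + ε) ^ m` elements if `m ≥ m₀` and `V ≤ exp (δ m / log m)`.
(2) For all `m` there is such a set with `V = (m + 1) (m b ^ 2 + 1)` and
`|A| ≥ rate b ^ m / (b (m b ^ 2 + 1))`.
(3) `rate b ≤ upperRate b < b`, and both numbers are equal for even `b`, for `b = 3` and for
`b = 7`.
(4) In these cases, for all sequences `V m ≥ (m + 1) (m b ^ 2 + 1)` with
`log (V m) = o(m / log m)`, the largest size of a progression-free subset of `[0, b ^ m)` decided by
a `b`-additive function with at most `V m` values is `(rate b + o(1)) ^ m`. -/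
theorem result (b : ℕ) (hb : 2 ≤ b) :
    (∀ ε : ℝ, 0 < ε → ∃ δ : ℝ, 0 < δ ∧ ∃ m₀ : ℕ, ∀ (m V : ℕ) (A : Finset ℕ), m₀ ≤ m →
      DecidedBy b m V A → ThreeAPFree (A : Set ℕ) → (V : ℝ) ≤ Real.exp (δ * m / Real.log m) →
      (A.card : ℝ) ≤ (upperRate b + ε) ^ m) ∧
    (∀ m : ℕ, ∃ A : Finset ℕ, DecidedBy b m ((m + 1) * (m * b ^ 2 + 1)) A ∧
      ThreeAPFree (A : Set ℕ) ∧ rate b ^ m / (b * (m * b ^ 2 + 1)) ≤ A.card) ∧
    (rate b ≤ upperRate b ∧ upperRate b < b ∧
      (b % 2 = 0 ∨ b = 3 ∨ b = 7 → upperRate b = rate b)) ∧
    (b % 2 = 0 ∨ b = 3 ∨ b = 7 → ∀ V : ℕ → ℕ, (∀ m, (m + 1) * (m * b ^ 2 + 1) ≤ V m) →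
      Tendsto (fun m : ℕ => Real.log (V m) * Real.log m / m) atTop (𝓝 0) →
      Tendsto (fun m : ℕ => (largest b m (V m) : ℝ) ^ (1 / (m : ℝ))) atTop (𝓝 (rate b))) := by
  refine ⟨?_, ?_, ⟨rate_le hb, upperRate_lt hb, ?_⟩, ?_⟩
  · intro ε hε
    rw [← sqrt_K hb]
    exact PH.upper hb hε
  · intro m
    obtain ⟨A, h1, h2, h3⟩ := PH.lower hb m
    refine ⟨A, h1, h2, ?_⟩
    rw [sqrt_κ] at h3
    have hbR : (0 : ℝ) < b := by
      have : 0 < b := by omega
      exact_mod_cast this
    rw [div_le_iff₀ (by positivity)]
    refine h3.trans (le_of_eq ?_)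
    push_cast
    ring
  · intro h
    rw [← sqrt_K hb, PH.K_eq hb h, sqrt_κ]
  · intro h V hV hVlim
    have h1 := PH.tendsto_of hb (PH.K_eq hb h) V (fun m => by
      obtain ⟨A, h1, h2, h3⟩ := PH.lower hb m
      exact ⟨A, PH.DecU.mono (hV m) h1, h2, h3⟩) hVlim
    rw [sqrt_κ] at h1
    exact h1

end Pool.Agent.Results.MP_0f71ae_nt.AdditiveDigitStatistics
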