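import Pool.Agent.V5helper56.DC.Large

set_option autoImplicit false

/-!
# Progression-free sets of integers given by circuits of constant depth which read the digits

Let `b ≥ 2` and `N = b ^ n`. We consider circuits of constant depth (arbitrary tests of one digit,
AND and OR gates of any fan-in, arbitrary gates with at most `w` wires) which read the `n` digits of
a number `a < N` in base `b`.

If `A ⊆ [0, N)` has no `k`-term progression and is given by a polynomial of low degree in sets
decided by such circuits (over any field: for instance one counting gate at the top, modulo a prime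
or `≠ t`), then `|A|` is much smaller than `N`. Hence the extremal sets for `r_k(b ^ n)`, `k ≥ 3`,
and all progression-free sets as large as Behrend's ones need circuits of size
`exp (n ^ (1 / (2 (d + 1)) - o(1)))`, even with such a gate at the top.

Proof. Group the digits into blocks of `s` digits, so that the blocks are digits in base
`B = b ^ s ≥ k n`, and embed the words over `{0, …, B - 1}` into those over `ℤ / (B + k)`: this
costs a factor `(1 + k / B) ^ (n / s) ≤ 3`. Adding `j < k` to the letters in a set of places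
produces no carries. Now a random restriction makes all circuits shallow decision trees, and the
product of the `k` functions `[x + j 1_W ∈ A]` would be a function of low degree supported at one
point.
-/

namespace Pool.Agent.Results.MP_0f71ae_nt.DigitCircuits

open Finset Function
open Pool.Agent.V5helper56.DC
open Pool.Agent.N381.AC

/-- the number of the sets `F i` which contain `a` -/
def count {T : ℕ} (F : Fin T → Finset ℕ) (a : ℕ) : ℕ := (univ.filter fun i => a ∈ F i).card

theorem eval_sum {T : ℕ} {K : Type} [Field K] (F : Fin T → Finset ℕ) (a : ℕ) :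
    MvPolynomial.eval (fun i => if a ∈ F i then (1 : K) else 0) (∑ i, MvPolynomial.X i) =
      (count F a : K) := by
  rw [map_sum]
  simp only [MvPolynomial.eval_X]
  rw [count, card_filter]
  push_cast
  rfl

theorem deg_sum {T : ℕ} {K : Type} [Field K] (a : K) :
    (∑ i : Fin T, MvPolynomial.X i - MvPolynomial.C a : MvPolynomial (Fin T) K).totalDegree ≤ 1 := by
  refine (MvPolynomial.totalDegree_sub _ _).trans (max_le ?_ ?_)
  · refine (MvPolynomial.totalDegree_finsetSum_le fun i _ => ?_)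
    rw [MvPolynomial.totalDegree_X]
  · rw [MvPolynomial.totalDegree_C]
    exact Nat.zero_le _

theorem support_ne {b n w ℓ d T : ℕ} {A : Finset ℕ} (F : Fin T → Finset ℕ)
    (hF : ∀ i, Decided b n w ℓ d (F i)) (t : ℕ) (h : ∀ a, a ∈ A ↔ a < b ^ n ∧ count F a ≠ t) :
    SupportOf b n w ℓ d T 1 A := by
  refine ⟨ℚ, inferInstance, F, ∑ i, MvPolynomial.X i - MvPolynomial.C (t : ℚ), hF, deg_sum _,
    fun a => ?_⟩
  rw [map_sub, eval_sum, MvPolynomial.eval_C, h, sub_ne_zero]
  exact_mod_cast Iff.rfl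

theorem support_mod {b n w ℓ d T : ℕ} {A : Finset ℕ} (F : Fin T → Finset ℕ)
    (hF : ∀ i, Decided b n w ℓ d (F i)) (t p : ℕ) (hp : p.Prime)
    (h : ∀ a, a ∈ A ↔ a < b ^ n ∧ count F a ≡ t [MOD p]) :
    SupportOf b n w ℓ d T (p - 1) A := by
  have : Fact p.Prime := ⟨hp⟩
  refine ⟨ZMod p, inferInstance, F,
    1 - (∑ i, MvPolynomial.X i - MvPolynomial.C (t : ZMod p)) ^ (p - 1), hF, ?_, fun a => ?_⟩
  · refine (MvPolynomial.totalDegree_sub _ _).trans (max_le ?_ ?_)
    · rw [MvPolynomial.totalDegree_one]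
      exact Nat.zero_le _
    · refine (MvPolynomial.totalDegree_pow _ _).trans ?_
      calc (p - 1) * _ ≤ (p - 1) * 1 := Nat.mul_le_mul_left _ (deg_sum _)
        _ = p - 1 := mul_one _
  · rw [map_sub, map_one, map_pow, map_sub, eval_sum, MvPolynomial.eval_C, h]
    have e : count F a ≡ t [MOD p] ↔ (count F a : ZMod p) - t = 0 := by
      rw [sub_eq_zero, ZMod.natCast_eq_natCast_iff]
    rw [e]
    refine and_congr Iff.rfl ?_
    constructor
    · intro h0
      rw [h0, zero_pow (by have := hp.two_le; omega), sub_zero]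
      exact one_ne_zero
    · intro h1
      by_contra h0
      rw [ZMod.pow_card_sub_one_eq_one h0, sub_self] at h1
      exact h1 rfl

/-- **Theorem.** Let `b ≥ 2`, `k, d, w, T, s ≥ 1`. Circuits read the `n` digits in base `b` of
numbers `a < b ^ n`.
(1) If `A ⊆ [0, b ^ n)` contains no `k`-term progression whose common difference has only the digits
`0` and `1`, and `A` is the support of a polynomial of degree at most `q` over a field in `T`
sets decided by circuits of depth `d` and size `2 ^ ℓ`, and if `k n ≤ b ^ s`, then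
`|A| ≤ 12 (4 ^ (k (q + 1) (ℓ + 1)) + k (T + 1)) b ^ n 2 ^ (- ⌊n / s⌋ / (2 (k (q + 1) (d + 1) + 1) L))`
with `L = (2 ^ (d + 10) w (ℓ + 1)) ^ (d + 1)`.
(2) Let `F_1, …, F_T` be decided by such circuits. Their union, and the set of the `a < b ^ n` for
which the number of the sets `F_i ∋ a` is not `t`, are supports of such polynomials with `q = 1`;
the set of the `a` for which this number is `≡ t` modulo a prime `p` is one with `q = p - 1`.
(3) For all `k, d ≥ 1` and `C` there are `c > 0` and `n₀` such that, if `n ≥ n₀`, `A` is as in (1),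
`T ≤ 2 ^ √n` and `|A| ≥ b ^ n exp (- C √n)`, then `(q + 1) (w (ℓ + 1)) ^ (d + 1) ≥ c √n / log n`.
(4) For `k ≥ 3` this holds for the largest subsets `A` of `[0, b ^ n)` without `k`-term progressions
if they are supports as in (1). -/
theorem result (b : ℕ) (hb : 2 ≤ b) :
    (∀ k n w ℓ d T q s : ℕ, 1 ≤ k → 1 ≤ w → 1 ≤ d → 1 ≤ T → 1 ≤ s → k * n ≤ b ^ s →
      ∀ A : Finset ℕ, BinaryAPFree b k A → SupportOf b n w ℓ d T q A →
        (A.card : ℝ) ≤ 12 * (4 ^ (k * (q + 1) * (ℓ + 1)) + k * (T + 1)) * (b : ℝ) ^ n *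
          (2 : ℝ) ^ (-((n / s : ℕ) /
            (2 * (k * (q + 1) * (d + 1) + 1) * (2 ^ (d + 10) * (w * (ℓ + 1))) ^ (d + 1)) : ℝ))) ∧
    (∀ n w ℓ d T : ℕ, ∀ F : Fin T → Finset ℕ, (∀ i, Decided b n w ℓ d (F i)) →
      SupportOf b n w ℓ d T 1 (univ.biUnion F) ∧
      (∀ t, SupportOf b n w ℓ d T 1 ((range (b ^ n)).filter fun a => count F a ≠ t)) ∧
      (∀ t p : ℕ, p.Prime → SupportOf b n w ℓ d T (p - 1)
        ((range (b ^ n)).filter fun a => count F a ≡ t [MOD p]))) ∧
    (∀ k d : ℕ, 1 ≤ k → 1 ≤ d → ∀ C : ℝ, ∃ (c : ℝ) (n₀ : ℕ), 0 < c ∧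
      ∀ n w ℓ T q : ℕ, n₀ ≤ n → 1 ≤ w → 1 ≤ T → (T : ℝ) ≤ (2 : ℝ) ^ √(n : ℝ) →
      ∀ A : Finset ℕ, BinaryAPFree b k A → (b : ℝ) ^ n * Real.exp (-(C * √(n : ℝ))) ≤ A.card →
        SupportOf b n w ℓ d T q A →
        c * √(n : ℝ) / Real.log n ≤ (q + 1) * ((w : ℝ) * (ℓ + 1)) ^ (d + 1)) ∧
    (∀ k d : ℕ, 3 ≤ k → 1 ≤ d → ∃ (c : ℝ) (n₀ : ℕ), 0 < c ∧
      ∀ n w ℓ T q : ℕ, n₀ ≤ n → 1 ≤ w → 1 ≤ T → (T : ℝ) ≤ (2 : ℝ) ^ √(n : ℝ) →
      ∀ A : Finset ℕ, A ⊆ range (b ^ n) → APFree k A →
        (∀ A' ⊆ range (b ^ n), APFree k A' → A'.card ≤ A.card) → SupportOf b n w ℓ d T q A →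
        c * √(n : ℝ) / Real.log n ≤ (q + 1) * ((w : ℝ) * (ℓ + 1)) ^ (d + 1)) := by
  refine ⟨?_, ?_, ?_, ?_⟩
  · intro k n w ℓ d T q s hk hw hd hT hs hkn A hA h
    have h1 := main hb hk hw hd hT hs hkn A hA h
    rw [loss] at h1
    push_cast at h1
    exact h1
  · intro n w ℓ d T F hF
    refine ⟨support_ne F hF 0 fun a => ?_, fun t => support_ne F hF t fun a => ?_,
      fun t p hp => support_mod F hF t p hp fun a => ?_⟩
    · rw [count, card_ne_zero, filter_nonempty_iff, mem_biUnion]
      constructor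
      · rintro ⟨i, hi⟩
        obtain ⟨C, o, -, -, hC⟩ := hF i
        exact ⟨((hC a).1 hi.2).1, i, hi⟩
      · rintro ⟨-, i, hi⟩
        exact ⟨i, hi⟩
    · rw [mem_filter, mem_range]
    · rw [mem_filter, mem_range]
  · intro k d hk hd C
    exact not_support b hb k d hk hd C
  · intro k d hk hd
    obtain ⟨c, n₀, hc, h⟩ := not_support b hb k d (by omega) hd (4 * √(Real.log b))
    refine ⟨c, max n₀ 12, hc, fun n w ℓ T q hn hw hT hT2 A hA1 hA2 hA3 hS => ?_⟩
    exact h n w ℓ T q ((le_max_left _ _).trans hn) hw hT hT2 A (fun a d _ h => hA2 a d h)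
      (extremal_large hb hk ((le_max_right _ _).trans hn) ⟨hA1, hA2, hA3⟩) hS

end Pool.Agent.Results.MP_0f71ae_nt.DigitCircuits
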