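import Pool.Agent.V5helper56.SY.Sym

set_option autoImplicit false

/-!
# Progression-free sets given by digit frequencies

Let `b ≥ 2`, `k = ⌊(b + 1) / 2⌋` and `n = q L`. We consider sets `A ⊆ [0, b ^ n)` such that
`a ∈ A` depends only on how often each digit occurs in each of the `q` consecutive blocks of `L`
digits of `a` in base `b` (for `q = 1`: only on how often each digit occurs in `a`). The
constructions of Salem and Spencer and of Behrend in base `b` are of this form: they use only the
digits `0, …, k - 1`, so that there are no carries.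

We prove that this is optimal: the largest set of this form without three-term progressions has
`(k ^ L (L + 1) ^ O(1)) ^ q` elements. In particular the growth rate is exactly `k` for `q = 1`, and
there is a power saving in `N = b ^ n` as soon as the blocks are longer than a constant `L₀(b)`.

Proof. If `D` is a set of more than `k` digits, then there are words `X, Y, Z` over `D`, which are
rearrangements of each other and, read as numbers in base `b`, form a nontrivial progression. They
are found as a closed walk in the graph of the carries of `X + Z = 2 Y`. The existence of a closed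
walk which uses every letter twice as often in `Y` as in `X` and `Z` together is, by linear
programming duality and Euler's theorem, a statement on potentials `f` on `D` and `h` on the three
carries `- 1, 0, 1` with `f x + f z - 2 f y + h e' - h e ≥ 0` for all transitions, and it follows
from a maximum principle: as `2 |D| > b + 1`, for all `y` and `e` there is a solution of
`x + z - 2 y = b e' - e` with `z ≠ y`.
-/

namespace Pool.Agent.Results.MP_0f71ae_nt.DigitFrequencies

open Finset
open Pool.Agent.V5helper56.SY

/-- `A` is a set of numbers with at most `q L` digits in base `b`, and `A` is unchanged when the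
digits in one of the `q` consecutive blocks of `L` digits are permuted. (Lists of digits start with
the lowest digit.) -/
def BlockSymmetric (b L q : ℕ) (A : Finset ℕ) : Prop :=
  A ⊆ range (b ^ (q * L)) ∧
  ∀ (j : ℕ) (u w w' v : List ℕ), j < q → u.length = j * L → w.length = L →
    u.length + w.length + v.length = q * L → (∀ d ∈ u ++ w ++ v, d < b) → w.Perm w' →
    Nat.ofDigits b (u ++ w ++ v) ∈ A → Nat.ofDigits b (u ++ w' ++ v) ∈ A

theorem upper (b : ℕ) (hb : 2 ≤ b) : ∃ C : ℕ, ∀ L q : ℕ, ∀ A : Finset ℕ,
    BlockSymmetric b L q A → ThreeAPFree (A : Set ℕ) →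
      A.card ≤ (C * (L + 1) ^ C * ((b + 1) / 2) ^ L) ^ q := by
  obtain ⟨m, hm⟩ := gadgets b
  refine ⟨2 ^ b * b ^ (b * m) + b * m, fun L q A hA hF => ?_⟩
  have hk : 0 < (b + 1) / 2 := by omega
  have hsub : A ⊆ (range (b ^ (q * L))).filter fun a => ∀ j < q,
      Good b ((b + 1) / 2) m (dl b L (a / b ^ (j * L))) := by
    intro a ha
    refine mem_filter.2 ⟨hA.1 ha, fun j hj => ?_⟩
    exact block_good hb hm hA.1 hA.2 hF ha hj
  refine (card_le_card hsub).trans ?_
  rw [card_blocks (by omega) L (fun l => Good b ((b + 1) / 2) m l) q]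
  refine Nat.pow_le_pow_left ((card_good hk (by omega) m L).trans ?_) q
  calc 2 ^ b * ((b * (L + 1)) ^ (b * m) * ((b + 1) / 2) ^ L)
      = 2 ^ b * b ^ (b * m) * (L + 1) ^ (b * m) * ((b + 1) / 2) ^ L := by
        rw [mul_pow]
        ring
    _ ≤ (2 ^ b * b ^ (b * m) + b * m) * (L + 1) ^ (2 ^ b * b ^ (b * m) + b * m) *
        ((b + 1) / 2) ^ L := by
        gcongr
        · exact Nat.le_add_right _ _
        · omega
        · exact Nat.le_add_left _ _

theorem lower (b : ℕ) (hb : 2 ≤ b) (L q : ℕ) : ∃ A : Finset ℕ,
    BlockSymmetric b L q A ∧ ThreeAPFree (A : Set ℕ) ∧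
      (((b + 1) / 2) ^ L) ^ q ≤ ((L + 1) ^ ((b + 1) / 2)) ^ q * A.card := by
  obtain ⟨k, hk⟩ : ∃ k, k = (b + 1) / 2 := ⟨_, rfl⟩
  rw [← hk]
  have hk0 : 0 < k := by omega
  have hkb : k ≤ b := by omega
  obtain ⟨w0, hw0, hpop⟩ := popular hk0 L
  obtain ⟨hw0l, hw0k⟩ := mem_words.1 hw0
  refine ⟨(range (b ^ (q * L))).filter fun a => ∀ j < q, (dl b L (a / b ^ (j * L))).Perm w0,
    ⟨filter_subset _ _, ?_⟩, ?_, ?_⟩
  · intro j u w w' v hj hu hw huv hd hww hA
    obtain ⟨-, h2⟩ := mem_filter.1 hA
    have hwl := hww.length_eq
    have hd' : ∀ d ∈ u ++ w' ++ v, d < b := by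
      intro d hd1
      apply hd
      rcases List.mem_append.1 hd1 with h | h
      · rcases List.mem_append.1 h with h | h
        · exact List.mem_append_left _ (List.mem_append_left _ h)
        · exact List.mem_append_left _ (List.mem_append_right _ (hww.mem_iff.2 h))
      · exact List.mem_append_right _ h
    have hlen : (u ++ w ++ v).length = q * L := by
      rw [List.length_append, List.length_append]
      exact huv
    have hlen' : (u ++ w' ++ v).length = q * L := by
      rw [List.length_append, List.length_append, ← hwl]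
      exact huv
    refine mem_filter.2 ⟨?_, fun i hi => ?_⟩
    · rw [mem_range, ← hlen']
      exact ofDigits_lt _ hd'
    · have h3 := h2 i hi
      have hiL : i * L + L ≤ q * L := by
        calc i * L + L = (i + 1) * L := by ring
          _ ≤ q * L := Nat.mul_le_mul_right _ hi
      rw [dl_block hb hd (by rw [hlen]; exact hiL)] at h3
      rw [dl_block hb hd' (by rw [hlen']; exact hiL)]
      refine List.Perm.trans ?_ h3
      rcases lt_trichotomy i j with hij | hij | hij
      · have h4 : i * L + L ≤ u.length := by
          rw [hu]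
          calc i * L + L = (i + 1) * L := by ring
            _ ≤ j * L := Nat.mul_le_mul_right _ hij
        have h5 : ∀ w1 : List ℕ, ((u ++ w1 ++ v).drop (i * L)).take L = (u.drop (i * L)).take L := by
          intro w1
          rw [List.append_assoc, List.drop_append_of_le_length (by omega),
            List.take_append_of_le_length (by rw [List.length_drop]; omega)]
        rw [h5, h5]
      · subst hij
        have h5 : ∀ w1 : List ℕ, w1.length = L → ((u ++ w1 ++ v).drop (i * L)).take L = w1 := by
          intro w1 hw1
          rw [List.append_assoc, ← hu, List.drop_left, ← hw1, List.take_left]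
        rw [h5 w hw, h5 w' (by omega)]
        exact hww.symm
      · have h4 : (u ++ w).length ≤ i * L := by
          rw [List.length_append, hu, hw]
          calc j * L + L = (j + 1) * L := by ring
            _ ≤ i * L := Nat.mul_le_mul_right _ hij
        have h4' : (u ++ w').length = (u ++ w).length := by
          rw [List.length_append, List.length_append, hwl]
        have h5 : ∀ w1 : List ℕ, w1.length ≤ i * L → ((w1 ++ v).drop (i * L)).take L =
            (v.drop (i * L - w1.length)).take L := by
          intro w1 hw1
          rw [List.drop_append, List.drop_eq_nil_of_le hw1, List.nil_append]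
        rw [h5 _ h4, h5 _ (by omega), h4']
  · intro a ha y hy c hc hac
    obtain ⟨ha1, ha2⟩ := mem_filter.1 (mem_coe.1 ha)
    obtain ⟨hy1, hy2⟩ := mem_filter.1 (mem_coe.1 hy)
    obtain ⟨hc1, hc2⟩ := mem_filter.1 (mem_coe.1 hc)
    rw [mem_range] at ha1 hy1 hc1
    have pa := blocks_perm ha2
    have py := blocks_perm hy2
    have pc := blocks_perm hc2
    have hlt : ∀ d ∈ (List.replicate q w0).flatten, d < k := by
      intro d hd
      obtain ⟨l, hl, hdl⟩ := List.mem_flatten.1 hd
      rw [List.eq_of_mem_replicate hl] at hdl
      exact hw0k d hdl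
    have key := nocarry (b := b) (k := k) (by omega) (X := dl b (q * L) a) (Y := dl b (q * L) y)
      (Z := dl b (q * L) c) (by rw [length_dl, length_dl]) (by rw [length_dl, length_dl])
      (fun d hd => hlt d (pa.mem_iff.1 hd)) (fun d hd => hlt d (py.mem_iff.1 hd))
      (fun d hd => hlt d (pc.mem_iff.1 hd))
      (by rw [ofDigits_dl _ _ ha1, ofDigits_dl _ _ hy1, ofDigits_dl _ _ hc1]; omega)
    have sa := (pa.map (· ^ 2)).sum_eq
    have sy := (py.map (· ^ 2)).sum_eq
    have sc := (pc.map (· ^ 2)).sum_eq
    have h1 := key.2 (by rw [sa, sy, sc]; omega)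
    have h2 := congrArg (Nat.ofDigits b) h1
    rwa [ofDigits_dl _ _ ha1, ofDigits_dl _ _ hy1] at h2
  · rw [card_blocks (by omega) L (fun l => l.Perm w0) q, ← mul_pow]
    refine Nat.pow_le_pow_left (hpop.trans (Nat.mul_le_mul_left _ (card_le_card ?_))) q
    intro w hw
    obtain ⟨h1, h2⟩ := mem_filter.1 hw
    obtain ⟨h3, h4⟩ := mem_words.1 h1
    exact mem_filter.2 ⟨mem_words.2 ⟨h3, fun d hd => (h4 d hd).trans_le hkb⟩, h2⟩

/-- **Theorem.** Let `b ≥ 2` and `k = ⌊(b + 1) / 2⌋`. There is `C` such that for all `L, q`: every
`A ⊆ [0, b ^ (q L))` without three-term progressions which is unchanged when the digits inside the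
`q` consecutive blocks of `L` digits are permuted has at most `(C (L + 1) ^ C k ^ L) ^ q` elements;
and there is such a set with at least `(k ^ L / (L + 1) ^ k) ^ q` elements. -/
theorem result (b : ℕ) (hb : 2 ≤ b) : ∃ C : ℕ, ∀ L q : ℕ,
    (∀ A : Finset ℕ, BlockSymmetric b L q A → ThreeAPFree (A : Set ℕ) →
      A.card ≤ (C * (L + 1) ^ C * ((b + 1) / 2) ^ L) ^ q) ∧
    ∃ A : Finset ℕ, BlockSymmetric b L q A ∧ ThreeAPFree (A : Set ℕ) ∧
      (((b + 1) / 2) ^ L) ^ q ≤ ((L + 1) ^ ((b + 1) / 2)) ^ q * A.card := by
  obtain ⟨C, hC⟩ := upper b hb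
  exact ⟨C, fun L q => ⟨fun A h1 h2 => hC L q A h1 h2, lower b hb L q⟩⟩

end Pool.Agent.Results.MP_0f71ae_nt.DigitFrequencies
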