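import Pool.Agent.V5helper56.DC.Large

set_option autoImplicit false

/-!
# Roth's and Szemerédi's theorems inside sets decided by digit circuits

Let `b ≥ 2` and `N = b ^ n`. We consider circuits of depth `d` (arbitrary tests of one digit,
AND and OR gates of any fan-in, arbitrary gates with at most `w` wires) with `2 ^ ℓ` nodes which read
the `n` digits of a number `a < N` in base `b`.

* (1), (2) The theorems of Roth and Szemerédi hold inside every set `F` which is decided by such a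
  circuit, even if `F` has only `N 2 ^ (- c n / (w ℓ) ^ (d + 1))` elements: the density of a
  progression-free set in `F` is at most its maximal density in a fixed interval `[0, b ^ m)`, up
  to `o(1)`.
* (3) Hence the extremal sets for `r_k(b ^ n)`, `k ≥ 3`, and all progression-free sets as
  large as Behrend's ones are almost disjoint from every set decided by a circuit of size
  `exp (n ^ (1 / (2 (d + 1)) - o(1)))`: the empty set is an almost optimal approximation.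

Proof. For random numbers `x, y` the circuit which reads from each place the digit of `x` or of `y`
is Boolean and its total sensitivity is small; so a random change of a block of `m` digits rarely
leaves `F`, while it meets `A` with probability at most `r_k(b ^ m) / b ^ m`.
-/

namespace Pool.Agent.Results.MP_0f71ae_nt.RelativeCircuits

open Finset Function
open Pool.Agent.V5helper56.DC
open Pool.Agent.N381.AC

/-- **Theorem.** Let `b ≥ 2` and let `F ⊆ [0, b ^ n)` be decided by a circuit of depth `d` and size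
`2 ^ ℓ` which reads the digits in base `b`; put `L = (2 ^ (d + 10) w ℓ) ^ (d + 1)`.
(1) Let `m ≥ 1` and suppose that subsets of `[0, b ^ m)` without `k`-term progressions have at most
`r` elements. For every `A` without `k`-term progressions and every `ε > 0`,
`|A ∩ F| ≤ (r / b ^ m + ε) |F| + m b ^ n 2 ^ (2 ℓ + 4 - ε ⌊n / m⌋ / ((d + 1) L))`.
(2) For all `k` and `δ > 0` there is `c > 0` such that for all `n, w, ℓ, d`, all such `F` and all `A`
without `k`-term progressions `|A ∩ F| ≤ δ |F| + b ^ n 2 ^ (2 ℓ + 1 / c - c n / ((d + 1) L))`.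
(3) For all `k, d, C` and `δ > 0` there are `c > 0` and `n₀` such that, if `n ≥ n₀`,
`(w ℓ) ^ (d + 1) ≤ c √n`, `A` contains no `k`-term progression and `|A| ≥ b ^ n exp (- C √n)`, then
`|A ∩ F| ≤ δ (|A| + |F|)`.
(4) For `k ≥ 3` this holds for the largest subsets `A` of `[0, b ^ n)` without `k`-term
progressions. -/
theorem result (b : ℕ) (hb : 2 ≤ b) :
    (∀ k n m w ℓ d r : ℕ, 1 ≤ w → 1 ≤ ℓ → 1 ≤ m →
      (∀ Y : Finset ℕ, (∀ y ∈ Y, y < b ^ m) → APFree k Y → Y.card ≤ r) →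
      ∀ F A : Finset ℕ, Decided b n w ℓ d F → APFree k A → ∀ ε : ℝ, 0 < ε →
        ((A ∩ F).card : ℝ) ≤ (r / (b : ℝ) ^ m + ε) * F.card + m * (b : ℝ) ^ n *
          (2 : ℝ) ^ (2 * ℓ + 4 - ε * (n / m : ℕ) /
            ((d + 1) * (2 ^ (d + 10) * (w * ℓ)) ^ (d + 1)) : ℝ)) ∧
    (∀ (k : ℕ) (δ : ℝ), 0 < δ → ∃ c : ℝ, 0 < c ∧ ∀ n w ℓ d : ℕ, 1 ≤ w → 1 ≤ ℓ →
      ∀ F A : Finset ℕ, Decided b n w ℓ d F → APFree k A →
        ((A ∩ F).card : ℝ) ≤ δ * F.card + (b : ℝ) ^ n *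
          (2 : ℝ) ^ (2 * ℓ + 1 / c - c * n /
            ((d + 1) * (2 ^ (d + 10) * (w * ℓ)) ^ (d + 1)) : ℝ)) ∧
    (∀ (k d : ℕ) (C δ : ℝ), 0 < δ → ∃ (c : ℝ) (n₀ : ℕ), 0 < c ∧ ∀ n w ℓ : ℕ, n₀ ≤ n → 1 ≤ w →
      1 ≤ ℓ → ((w : ℝ) * ℓ) ^ (d + 1) ≤ c * √(n : ℝ) → ∀ F A : Finset ℕ, Decided b n w ℓ d F →
      APFree k A → (b : ℝ) ^ n * Real.exp (-(C * √(n : ℝ))) ≤ A.card →
        ((A ∩ F).card : ℝ) ≤ δ * (A.card + F.card)) ∧
    (∀ (k d : ℕ) (δ : ℝ), 3 ≤ k → 0 < δ → ∃ (c : ℝ) (n₀ : ℕ), 0 < c ∧ ∀ n w ℓ : ℕ, n₀ ≤ n →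
      1 ≤ w → 1 ≤ ℓ → ((w : ℝ) * ℓ) ^ (d + 1) ≤ c * √(n : ℝ) → ∀ F A : Finset ℕ,
      Decided b n w ℓ d F → A ⊆ range (b ^ n) → APFree k A →
      (∀ A' ⊆ range (b ^ n), APFree k A' → A'.card ≤ A.card) →
        ((A ∩ F).card : ℝ) ≤ δ * (A.card + F.card)) := by
  have hloss : ∀ w ℓ d : ℕ, ((d : ℝ) + 1) * (2 ^ (d + 10) * ((w : ℝ) * ℓ)) ^ (d + 1) =
      ((d + 1 : ℕ) : ℝ) * Y347.CO.KK (d + 1) w ℓ := by
    intro w ℓ d
    rw [Y347.CO.KK, Nat.cast_add, Nat.cast_one]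
    push_cast
    rfl
  refine ⟨?_, ?_, ?_, ?_⟩
  · intro k n m w ℓ d r hw hℓ hm hr F A hF hA ε hε
    rw [hloss, mul_assoc]
    exact relative hb hw hℓ hm hr F A hF hA hε
  · intro k δ hδ
    obtain ⟨c, hc, h⟩ := relative_c b k hb δ hδ
    refine ⟨c, hc, fun n w ℓ d hw hℓ F A hF hA => ?_⟩
    rw [hloss]
    exact h n w ℓ d hw hℓ F A hF hA
  · intro k d C δ hδ
    exact almost_disjoint b hb k d C δ hδ
  · intro k d δ hk hδ
    obtain ⟨c, n₀, hc, h⟩ := almost_disjoint b hb k d (4 * √(Real.log b)) δ hδ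
    refine ⟨c, max n₀ 12, hc, fun n w ℓ hn hw hℓ hwl F A hF hA1 hA2 hA3 => ?_⟩
    exact h n w ℓ ((le_max_left _ _).trans hn) hw hℓ hwl F A hF hA2
      (extremal_large hb hk ((le_max_right _ _).trans hn) ⟨hA1, hA2, hA3⟩)

end Pool.Agent.Results.MP_0f71ae_nt.RelativeCircuits
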